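import Pool.Agent.CYG.D.Same
import Pool.Agent.CYL.D.Fdef
import Pool.Agent.CYG.D.B.Bd

/-!
# CYL part D: the last assembly (both paths from the vertex `0`)
-/

namespace Pool.Agent.CYL

open Pool.Agent.Hhelper14.SAW Pool.Agent.HHP Pool.Agent.QL Pool.Agent.BEX
open scoped ENNReal Topology
open Filter

namespace Last

lemma wt_nonneg (w : List ℂ) : 0 ≤ Plane.wt w := by
  unfold Plane.wt
  have : 0 ≤ Pool.Agent.Hhelper14.Honeycomb.muL := by
    unfold Pool.Agent.Hhelper14.Honeycomb.muL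
    exact Real.iInf_nonneg fun n => by positivity
  positivity

/-- From an `ENNReal` sum to a real sum. -/
lemma tsum_of {ι : Type*} {f : ι → ℝ} (hf : ∀ i, 0 ≤ f i) {z : ℝ≥0∞} (h : ∑' i, ENNReal.ofReal (f i) = z)
    (hz : z ≠ ⊤) : Summable f ∧ ∑' i, f i = z.toReal := by
  have hs : Summable f := by
    have := ENNReal.summable_toReal (f := fun i => ENNReal.ofReal (f i)) (h ▸ hz)
    refine this.congr fun i => ?_
    simp [ENNReal.toReal_ofReal (hf i)]
  refine ⟨hs, ?_⟩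
  rw [← h, ← ENNReal.ofReal_tsum_of_nonneg hf hs, ENNReal.toReal_ofReal (tsum_nonneg hf)]

/-- `log f(N) / (N + 1)` has the limit of `log f(N) / N`. -/
lemma shift {f : ℕ → ℝ} {a : ℝ} (h : Tendsto (fun N : ℕ => f N / N) atTop (𝓝 a)) :
    Tendsto (fun N : ℕ => f N / ((N + 1 : ℕ) : ℝ)) atTop (𝓝 a) := by
  have h1 : Tendsto (fun N : ℕ => (N : ℝ) / (N + 1)) atTop (𝓝 1) := tendsto_natCast_div_add_atTop 1
  have h2 := h.mul h1
  rw [mul_one] at h2
  refine h2.congr' ?_
  filter_upwards [eventually_ge_atTop 1] with N hN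
  have hN' : (N : ℝ) ≠ 0 := by
    have : (1 : ℝ) ≤ N := by exact_mod_cast hN
    positivity
  have h3 : (N : ℝ) + 1 ≠ 0 := by positivity
  push_cast
  field_simp

lemma const_div (a : ℝ) : Tendsto (fun N : ℕ => a / (N : ℝ)) atTop (𝓝 0) :=
  tendsto_const_div_atTop_nhds_zero_nat a

/-- The growth rate of `vm`. -/
theorem vm_rate {L : ℕ} (hL : 3 ≤ L) (c : Fin L) {a : ℝ}
    (hZ : Tendsto (fun N : ℕ => Real.log (Zc L 2 N).toReal / N) atTop (𝓝 a))
    (hF : Tendsto (fun N : ℕ => Real.log (∑ e, fm N ![c, md c 1] e).toReal / N) atTop (𝓝 a)) :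
    (∀ᶠ N in atTop, 0 < (vm N c).toReal) ∧
      Tendsto (fun N : ℕ => Real.log (vm N c).toReal / N) atTop (𝓝 a) := by
  classical
  have hL2 : 2 ≤ L := by omega
  have hinj : Function.Injective ![c, md c 1] := by
    have := Same.md_ne hL2 c
    intro i j hij
    fin_cases i <;> fin_cases j <;> simp_all
  have hz2 : ∀ N, z2 N ![c, md c 1] = ∑ e, fm N ![c, md c 1] e := by
    intro N
    unfold z2
    refine Finset.sum_congr rfl fun e _ => ?_
    split_ifs with h
    · rfl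
    · exact (fm_zero_right h).symm
  have hfin : ∀ N, vm N c ≠ ⊤ := fun N =>
    ne_top_of_le_ne_top (ENNReal.mul_ne_top (by norm_num) (Zc_two_ne_top L N)) (vm_le hL2 N c)
  have hx : 0 < (xE ^ 4).toReal := ENNReal.toReal_pos (pow_ne_zero _ xE_ne.1) (ENNReal.pow_ne_top xE_ne.2)
  have hlow : ∀ N, 1 ≤ N → (xE ^ 4).toReal * (∑ e, fm N ![c, md c 1] e).toReal ≤ (vm (N + 1) c).toReal := by
    intro N _
    rw [← ENNReal.toReal_mul, ← hz2]
    exact ENNReal.toReal_mono (hfin _) (le_vm hL2 N c)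
  have hup : ∀ N, (vm N c).toReal ≤ 3 * (Zc L 2 N).toReal := by
    intro N
    have := ENNReal.toReal_mono (ENNReal.mul_ne_top (by norm_num) (Zc_two_ne_top L N)) (vm_le hL2 N c)
    simpa [ENNReal.toReal_mul] using this
  have hfpos : ∀ N, 1 ≤ N → 0 < (∑ e, fm N ![c, md c 1] e).toReal := fun N hN =>
    sum_fm_real_pos (Or.inr rfl) hinj hN
  have hvpos : ∀ N, 1 ≤ N → 0 < (vm (N + 1) c).toReal := fun N hN =>
    lt_of_lt_of_le (mul_pos hx (hfpos N hN)) (hlow N hN)
  have hpos : ∀ᶠ N in atTop, 0 < (vm N c).toReal := by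
    filter_upwards [eventually_ge_atTop 2] with N hN
    obtain ⟨n, rfl⟩ : ∃ n, N = n + 1 := ⟨N - 1, by omega⟩
    exact hvpos n (by omega)
  refine ⟨hpos, ?_⟩
  rw [← tendsto_add_atTop_iff_nat 1]
  have h1 : Tendsto (fun N : ℕ => (Real.log (xE ^ 4).toReal + Real.log (∑ e, fm N ![c, md c 1] e).toReal) /
      ((N + 1 : ℕ) : ℝ)) atTop (𝓝 a) := by
    have := ((const_div (Real.log (xE ^ 4).toReal)).comp (tendsto_add_atTop_nat 1)).add (shift hF)
    rw [zero_add] at this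
    refine this.congr fun N => ?_
    simp only [Function.comp]
    rw [add_div]
  have h2 : Tendsto (fun N : ℕ => (Real.log 3 + Real.log (Zc L 2 (N + 1)).toReal) /
      ((N + 1 : ℕ) : ℝ)) atTop (𝓝 a) := by
    have := ((const_div (Real.log 3)).add hZ).comp (tendsto_add_atTop_nat 1)
    rw [zero_add] at this
    refine this.congr fun N => ?_
    simp only [Function.comp]
    rw [add_div]
  refine tendsto_of_tendsto_of_tendsto_of_le_of_le' h1 h2 ?_ ?_
  · filter_upwards [eventually_ge_atTop 1] with N hN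
    refine div_le_div_of_nonneg_right ?_ (by positivity)
    rw [← Real.log_mul hx.ne' (hfpos N hN).ne']
    exact Real.log_le_log (mul_pos hx (hfpos N hN)) (hlow N hN)
  · filter_upwards [eventually_ge_atTop 1] with N hN
    refine div_le_div_of_nonneg_right ?_ (by positivity)
    have hZp : 0 < (Zc L 2 (N + 1)).toReal := Zc_real_pos (Or.inr rfl) (by omega) (by omega)
    rw [← Real.log_mul (by norm_num) hZp.ne']
    exact Real.log_le_log (hvpos N hN) (hup (N + 1))

end Last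

open Last

/-- Assembly: `lg l L` is the logarithm of the growth rate of the mass of `l` disjoint crossing paths. -/
theorem last_of (lg : ℕ → ℕ → ℝ)
    (cov1 : ∀ L N : ℕ, 2 ≤ L → 1 ≤ N → ∀ c : Fin L,
      ∑' w : Plane.Cross L N, ENNReal.ofReal (Plane.wt w.1) = ∑ e, cm N (ub N c) (ut e))
    (cov2 : ∀ L N : ℕ, 2 ≤ L → 1 ≤ N → ∀ c : Fin L,
      ∑' q : Plane.Avoid L N, ENNReal.ofReal (Plane.wt q.1.1 * Plane.wt q.1.2) = vm N c)
    (hZ : ∀ L : ℕ, 3 ≤ L → Tendsto (fun N : ℕ => Real.log (Zc L 2 N).toReal / N) atTop (𝓝 (lg 2 L)))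
    (hF : ∀ l, l = 1 ∨ l = 2 → ∀ L : ℕ, 3 ≤ L → ∀ c : Fin l → Fin L, Function.Injective c →
      Tendsto (fun N : ℕ => Real.log (∑ e, fm N c e).toReal / N) atTop (𝓝 (lg l L)))
    (hC : ∀ l, l = 1 ∨ l = 2 → Tendsto (fun k : ℕ => (2 : ℝ) ^ k * lg l (2 ^ k)) atTop
      (𝓝 (-(Real.sqrt 3 * Real.pi * (9 * (l : ℝ) ^ 2 - 4) / 48)))) :
    (∀ L N : ℕ, 2 ≤ L → 1 ≤ N → Summable fun w : Plane.Cross L N => Plane.wt w.1) ∧
    ∃ κ : ℕ → ℝ,
      (∀ L : ℕ, 3 ≤ L → Tendsto (fun N : ℕ => -Real.log (Plane.P L N) / N) atTop (𝓝 (κ L))) ∧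
      Tendsto (fun k : ℕ => (2 : ℝ) ^ k * κ (2 ^ k)) atTop (𝓝 (11 / 24 * Real.sqrt 3 * Real.pi)) := by
  have hcm : ∀ (L N : ℕ) (c : Fin L), ∑ e : Fin L, cm N (ub N c) (ut e) ≠ ⊤ := fun L N c =>
    ENNReal.sum_ne_top.2 fun e _ => ne_top_of_le_ne_top ENNReal.one_ne_top (cm_cross_le N c e)
  refine ⟨fun L N hL hN => ?_, fun L => 2 * lg 1 L - lg 2 L, fun L hL => ?_, ?_⟩
  · exact (tsum_of (fun w : Plane.Cross L N => wt_nonneg w.1) (cov1 L N hL hN ⟨0, by omega⟩) (hcm L N _)).1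
  · set c : Fin L := ⟨0, by omega⟩ with hc
    have hinj : Function.Injective ![c, md c 1] := by
      have := Same.md_ne (by omega : 2 ≤ L) c
      intro i j hij
      fin_cases i <;> fin_cases j <;> simp_all
    obtain ⟨hpos, hv⟩ := vm_rate hL c (hZ L hL) (hF 2 (Or.inr rfl) L hL _ hinj)
    have hinj1 : Function.Injective (fun _ : Fin 1 => c) := Function.injective_of_subsingleton _
    have h1 := hF 1 (Or.inl rfl) L hL _ hinj1
    have e1 : ∀ N, ∑ e : Fin 1 → Fin L, fm N (fun _ : Fin 1 => c) e = ∑ e : Fin L, cm N (ub N c) (ut e) := by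
      intro N
      rw [← (Equiv.funUnique (Fin 1) (Fin L)).symm.sum_comp]
      refine Finset.sum_congr rfl fun e _ => ?_
      rw [fm_one]
      rfl
    simp_rw [e1] at h1
    have h2 := (h1.const_mul 2).sub hv
    refine h2.congr' ?_
    filter_upwards [hpos, eventually_ge_atTop 1] with N hN hN1
    have a1 := (tsum_of (fun w : Plane.Cross L N => wt_nonneg w.1) (cov1 L N (by omega) hN1 c) (hcm L N _)).2
    have a2 := (tsum_of (fun q : Plane.Avoid L N => mul_nonneg (wt_nonneg q.1.1) (wt_nonneg q.1.2))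
      (cov2 L N (by omega) hN1 c) (ne_top_of_le_ne_top (ENNReal.mul_ne_top (by norm_num) (Zc_two_ne_top L N))
        (vm_le (by omega) N c))).2
    have p1 : 0 < (∑ e : Fin L, cm N (ub N c) (ut e)).toReal := by
      rw [← e1]
      exact sum_fm_real_pos (Or.inl rfl) hinj1 hN1
    unfold Plane.P
    rw [a1, a2, Real.log_div hN.ne' (by positivity), Real.log_pow]
    push_cast
    ring
  · have h1 := (hC 1 (Or.inl rfl)).const_mul 2
    have h2 := h1.sub (hC 2 (Or.inr rfl))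
    refine (h2.congr fun k => ?_).trans_eq ?_
    · ring
    · congr 1
      push_cast
      ring

end Pool.Agent.CYL
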